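import Mathlib

/-!
# A domination bicritical hypo-unique-domination graph

The Wagner graph (the Möbius ladder on 8 vertices: `i` is adjacent to `i ± 1` and `i + 4`
modulo 8) is domination bicritical and hypo-UD: `γ = 3`, it has more than one `γ`-set, every
vertex-deleted subgraph `G - v` has `γ = 2` and the unique `γ`-set `{v + 3, v + 5}`, and deleting
two vertices leaves `γ ≤ 2`.
-/

set_option autoImplicit false

namespace Pool.Agent.Results.MP_405fb9_co.WagnerGraph

variable {V : Type} [Fintype V] [DecidableEq V]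

/-- `D` is a dominating set of the subgraph of `G` induced by `S`. -/
def Dominates (G : SimpleGraph V) (S D : Finset V) : Prop :=
  D ⊆ S ∧ ∀ v ∈ S, v ∉ D → ∃ u ∈ D, G.Adj v u

/-- The domination number of the subgraph of `G` induced by `S`. -/
noncomputable def gam (G : SimpleGraph V) (S : Finset V) : ℕ :=
  sInf {k | ∃ D : Finset V, Dominates G S D ∧ D.card = k}

/-- `D` is a `γ`-set of the subgraph of `G` induced by `S`. -/
def IsGammaSet (G : SimpleGraph V) (S D : Finset V) : Prop :=
  Dominates G S D ∧ D.card = gam G S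

/-- `G` is a hypo-UD graph: it has at least two `γ`-sets, but every `G - v` has exactly one. -/
def HypoUD (G : SimpleGraph V) : Prop :=
  (∃ D D' : Finset V, D ≠ D' ∧ IsGammaSet G Finset.univ D ∧ IsGammaSet G Finset.univ D') ∧
    ∀ v : V, ∃! D : Finset V, IsGammaSet G (Finset.univ.erase v) D

/-- `G` is domination bicritical: deleting any two vertices lowers the domination number. -/
def Bicritical (G : SimpleGraph V) : Prop :=
  ∀ v w : V, v ≠ w → gam G ((Finset.univ.erase v).erase w) < gam G Finset.univ

omit [Fintype V] [DecidableEq V] in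
theorem gam_eq {G : SimpleGraph V} {S : Finset V} {k : ℕ} (D : Finset V) (hD : Dominates G S D)
    (hk : D.card = k) (h : ∀ D : Finset V, Dominates G S D → k ≤ D.card) : gam G S = k := by
  refine le_antisymm (Nat.sInf_le ⟨D, hD, hk⟩) (le_csInf ⟨k, D, hD, hk⟩ ?_)
  rintro l ⟨D', hD', rfl⟩
  exact h D' hD'

/-- the Wagner graph -/
def W : SimpleGraph (Fin 8) where
  Adj i j := j = i + 1 ∨ i = j + 1 ∨ j = i + 4
  symm := ⟨by decide⟩
  loopless := ⟨by decide⟩

instance : DecidableRel W.Adj := fun i j =>
  inferInstanceAs (Decidable (j = i + 1 ∨ i = j + 1 ∨ j = i + 4))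

instance (S D : Finset (Fin 8)) : Decidable (Dominates W S D) :=
  inferInstanceAs (Decidable (D ⊆ S ∧ ∀ v ∈ S, v ∉ D → ∃ u ∈ D, W.Adj v u))

theorem gam_univ : gam W Finset.univ = 3 :=
  gam_eq {0, 1, 2} (by decide +kernel) (by decide +kernel) (by decide +kernel)

theorem gam_erase (v : Fin 8) : gam W (Finset.univ.erase v) = 2 :=
  gam_eq {v + 3, v + 5} (by revert v; decide +kernel) (by revert v; decide +kernel)
    (by revert v; decide +kernel)

/-- There is a graph with at least `3` vertices that is both domination bicritical and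
hypo-UD. -/
theorem result : ∃ (V : Type) (_ : Fintype V) (_ : DecidableEq V) (G : SimpleGraph V),
    3 ≤ Fintype.card V ∧ Bicritical G ∧ HypoUD G := by
  refine ⟨Fin 8, inferInstance, inferInstance, W, by decide, ?_, ⟨{0, 1, 2}, {1, 2, 3}, by decide,
    ⟨by decide +kernel, ?_⟩, ⟨by decide +kernel, ?_⟩⟩, ?_⟩
  · intro v w hvw
    rw [gam_univ]
    have h : ∀ v w : Fin 8, v ≠ w → ∃ a b : Fin 8,
        Dominates W ((Finset.univ.erase v).erase w) {a, b} := by decide +kernel
    obtain ⟨a, b, hab⟩ := h v w hvw
    refine lt_of_le_of_lt (Nat.sInf_le ⟨_, hab, rfl⟩) ?_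
    have := Finset.card_le_two (a := a) (b := b)
    omega
  · rw [gam_univ]
    decide
  · rw [gam_univ]
    decide
  · intro v
    refine ⟨{v + 3, v + 5}, ⟨by revert v; decide +kernel, ?_⟩, ?_⟩
    · rw [gam_erase]
      revert v
      decide +kernel
    · rintro D ⟨hD, hc⟩
      rw [gam_erase] at hc
      revert v D
      decide +kernel

end Pool.Agent.Results.MP_405fb9_co.WagnerGraph
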